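import Pool.Agent.Helper832_MU.Unr

/-!
# Minimal counterexamples to Iwasawa's conjecture

Let `p` be an odd prime. Number fields are finite subextensions of `Qb / ℚ`, `Qb = AlgebraicClosure ℚ`, and `𝓞 Qb` is
the ring of all algebraic integers. `MuVanishes p F` says that the degrees of the maximal unramified abelian
extensions of exponent `p` of the fields `F L` are bounded, where `L` runs through the layers of the cyclotomic
`ℤ_p`-extension of `ℚ`. By class field theory this is the boundedness of the `p`-ranks of the class groups of the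
layers of the cyclotomic `ℤ_p`-extension of `F`, i.e. `μ = 0`.
-/

set_option autoImplicit false

open NumberField

namespace Pool.Agent.Results.MP_a4986b_nt.MinimalCounterexample

/-- the field of algebraic numbers -/
abbrev Qb := AlgebraicClosure ℚ

/-- `L` is a layer of the cyclotomic `ℤ_p`-extension of `ℚ` (`p` odd): a number field contained in
`ℚ(μ_{p^∞})`, of `p`-power degree. -/
def IsLayer (p : ℕ) (L : IntermediateField ℚ Qb) : Prop :=
  L ≤ IntermediateField.adjoin ℚ {z : Qb | ∃ n, z ^ p ^ n = 1} ∧ ∃ n, Module.finrank ℚ L = p ^ n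

/-- `M / E` is Galois (for `E ≤ M`) -/
def GaloisOver (E M : IntermediateField ℚ Qb) : Prop := ∀ σ ∈ E.fixingSubgroup, ∀ x ∈ M, σ x ∈ M

/-- the Galois group of `M / E` is abelian -/
def AbelianOver (E M : IntermediateField ℚ Qb) : Prop :=
  ∀ σ ∈ E.fixingSubgroup, ∀ τ ∈ E.fixingSubgroup, ∀ x ∈ M, σ (τ x) = τ (σ x)

/-- the Galois group of `M / E` has exponent `p` -/
def ExponentOver (p : ℕ) (E M : IntermediateField ℚ Qb) : Prop :=
  ∀ σ ∈ E.fixingSubgroup, ∀ x ∈ M, (σ ^ p) x = x

/-- the inertia groups of the Galois extension `M / E` are trivial at all maximal ideals -/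
def UnramifiedOver (E M : IntermediateField ℚ Qb) : Prop :=
  ∀ P : Ideal (𝓞 Qb), P.IsMaximal → ∀ σ ∈ E.fixingSubgroup, (∀ y : 𝓞 Qb, σ • y - y ∈ P) →
    ∀ x ∈ M, σ x = x

/-- Every finite extension `M` of `E` which is Galois over `E` with abelian Galois group of exponent `p`, unramified
at all (finite) primes, has degree at most `C` over `E`. -/
def DegreeBound (p : ℕ) (E : IntermediateField ℚ Qb) (C : ℕ) : Prop :=
  ∀ M : IntermediateField ℚ Qb, E ≤ M → FiniteDimensional ℚ M → GaloisOver E M → AbelianOver E M →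
    ExponentOver p E M → UnramifiedOver E M → Module.finrank ℚ M ≤ C * Module.finrank ℚ E

/-- `μ = 0` for the cyclotomic `ℤ_p`-extension of `F` -/
def MuVanishes (p : ℕ) (F : IntermediateField ℚ Qb) : Prop :=
  ∃ C, ∀ L, IsLayer p L → DegreeBound p (F ⊔ L) C

open Pool.Agent.Helper832_MU in
theorem degree_iff {p : ℕ} {E : IntermediateField ℚ Qb} {C : ℕ} :
    DegI p unrG E C ↔ DegreeBound p E C := by
  constructor
  · intro h M h1 h2 h3 h4 h5 h6
    refine h M h1 h2 h3 h4 h5 fun P σ hσ hσE => ?_
    by_cases hP : P.IsMaximal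
    · rw [unrG_max hP] at hσ
      exact h6 P hP σ hσE hσ
    · rw [unrG_bot hP, Subgroup.mem_bot] at hσ
      intro x _
      rw [hσ]
      rfl
  · intro h M h1 h2 h3 h4 h5 h6
    refine h M h1 h2 h3 h4 h5 fun P hP σ hσE hσ => h6 P σ ?_ hσE
    rw [unrG_max hP]
    exact hσ

open Pool.Agent.Helper832_MU in
theorem mu_iff {p : ℕ} {F : IntermediateField ℚ Qb} : MuI p unrG F ↔ MuVanishes p F :=
  exists_congr fun _ => forall_congr' fun _ => forall_congr' fun _ => degree_iff

theorem mono {p : ℕ} [Fact p.Prime] {E F : IntermediateField ℚ Qb} (h : E ≤ F)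
    (hF : FiniteDimensional ℚ F) (hm : MuVanishes p F) : MuVanishes p E :=
  mu_iff.1 (Pool.Agent.Helper832_MU.MuI.mono h hF (mu_iff.2 hm))

/-- The group `G / K` (for a normal subgroup `K` of `G`) has a representation on a nonzero finite-dimensional vector
space over `𝔽_p` in which only the identity has a nonzero fixed vector. -/
def FixedPointFree (p : ℕ) {G : Type} [Group G] (K : Subgroup G) : Prop :=
  ∃ (V : Type) (_ : AddCommGroup V) (_ : Module (ZMod p) V) (ρ : Representation (ZMod p) G V),
    Nontrivial V ∧ Module.Finite (ZMod p) V ∧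
    ∀ g, (g ∈ K → ∀ v, ρ g v = v) ∧ (g ∉ K → ∀ v, ρ g v = v → v = 0)

/-- Let `p` be an odd prime and `M / k` a Galois extension of number fields with `μ = 0` for all fields `E` with
`k ≤ E < M`, and `μ ≠ 0` for `M`. Then `Gal(M/k)` has a fixed point free representation on a nonzero
finite-dimensional vector space over `𝔽_p`. -/
theorem result (p : ℕ) [Fact p.Prime] (hp : p ≠ 2) (k M : IntermediateField ℚ Qb) (hkM : k ≤ M)
    (hM : FiniteDimensional ℚ M) (hG : GaloisOver k M)
    (hE : ∀ E : IntermediateField ℚ Qb, k ≤ E → E < M → MuVanishes p E) (hμ : ¬ MuVanishes p M) :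
    FixedPointFree p (M.fixingSubgroup.subgroupOf k.fixingSubgroup) := by
  obtain ⟨V, i1, i2, i3, ρ, h1, h2, h3⟩ := Pool.Agent.Helper832_MU.min_free hp
    Pool.Agent.Helper832_MU.unrG_conj Pool.Agent.Helper832_MU.unrG_le k M hkM hM hG
    (fun E hkE hEM => mu_iff.2 (hE E hkE hEM)) (fun h => hμ (mu_iff.1 h))
  exact ⟨V, i1, i2, ρ, h1.1, i3, fun g => ⟨h2 g, h3 g⟩⟩

end Pool.Agent.Results.MP_a4986b_nt.MinimalCounterexample
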